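import Pool.Agent.H314.DC.FMain

set_option autoImplicit false

open DbarNeumann

namespace Pool.Agent.Results.MP_54f31c_an.DiscCompact

/-- There is a bounded (connected, nonempty, open) pseudoconvex domain `Ω ⊆ ℂ³` with `C^∞`
boundary whose boundary contains a non-constant analytic disc and whose `∂̄`-Neumann operator
`N₁` (the bounded inverse of the complex Laplacian `□₁` on `(0,1)`-forms) is compact. -/
theorem result :
    ∃ Ω : Set E3, Ω.Nonempty ∧ IsOpen Ω ∧ IsConnected Ω ∧ Bornology.IsBounded Ω ∧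
      SmoothBoundary Ω ∧ Pseudoconvex Ω ∧
      (∃ f : ℂ → E3, DifferentiableOn ℂ f (Metric.ball 0 1) ∧ (∃ z ∈ Metric.ball (0 : ℂ) 1,
        ∃ w ∈ Metric.ball (0 : ℂ) 1, f z ≠ f w) ∧ ∀ z ∈ Metric.ball (0 : ℂ) 1, f z ∈ frontier Ω) ∧
      ∃ N : Form Ω →L[ℂ] Form Ω, (∀ v, Box Ω (N v) v) ∧ (∀ u w, Box Ω u w → N w = u) ∧
        IsCompactOperator N :=
  DbarNeumann.mainC

end Pool.Agent.Results.MP_54f31c_an.DiscCompact
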